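import Pool.Agent.L7h32.AA.Stm

set_option autoImplicit false
set_option linter.unusedSectionVars false

open Set Filter Topology Metric MeasureTheory
open scoped ContDiff Manifold InnerProductSpace

noncomputable section

namespace Pool.Agent.L7h34.AA

open Pool.Agent.L7h32.AA

variable {E F : Type} [NormedAddCommGroup E] [NormedSpace ℝ E] [FiniteDimensional ℝ E]
  [MeasurableSpace E] [BorelSpace E] {μ : Measure E} [μ.IsAddHaarMeasure]
  [NormedAddCommGroup F] [NormedSpace ℝ F] [FiniteDimensional ℝ F]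

/-- the change of variables `w = x + t y` -/
theorem moll_eq (η : E → ℝ) (Φ : E → F) {t : ℝ} (ht : 0 < t) (x : E) :
    moll μ η Φ t x = |(t ^ Module.finrank ℝ E)⁻¹| •
      convolution Φ (fun u => η (t⁻¹ • (-u))) (ContinuousLinearMap.lsmul ℝ ℝ : ℝ →L[ℝ] F →L[ℝ] F).flip μ x := by
  unfold moll
  rw [convolution_def]
  have h1 := Measure.integral_comp_smul μ (fun w : E => η (t⁻¹ • w) • Φ (x + w)) t
  simp only [smul_smul, inv_mul_cancel₀ ht.ne', one_smul] at h1
  rw [h1]
  congr 1
  have h2 := integral_add_left_eq_self (μ := μ) (fun w : E => η (t⁻¹ • (w - x)) • Φ w) x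
  simp only [add_sub_cancel_left] at h2
  rw [h2]
  refine integral_congr_ae (Eventually.of_forall fun w => ?_)
  simp

/-- mollifications of continuous functions are smooth -/
theorem mol2 {η : E → ℝ} (hη : Ker μ η) {U V : Set E} {ρ : ℝ} {Φ : E → F} (hU : IsOpen U)
    (hV : IsOpen V) (hρ : 0 < ρ) (hUV : ∀ x ∈ V, ∀ z : E, ‖z‖ < ρ → x + z ∈ U)
    (hΦ : ContinuousOn Φ U) {t : ℝ} (ht : 0 < t) (htρ : t < ρ) :
    ContDiffOn ℝ ∞ (fun x => moll μ η Φ t x) V := by
  intro x₀ hx₀
  apply ContDiffAt.contDiffWithinAt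
  obtain ⟨δ, hδ⟩ : ∃ δ : ℝ, δ = (ρ - t) / 2 := ⟨_, rfl⟩
  have hδp : 0 < δ := by rw [hδ]; linarith
  have hδρ : δ + t < ρ := by rw [hδ]; linarith
  have hC : closedBall x₀ (δ + t) ⊆ U := by
    intro w hw
    have h1 := hUV x₀ hx₀ (w - x₀) (by
      rw [mem_closedBall, dist_eq_norm] at hw
      linarith)
    rwa [add_sub_cancel] at h1
  have hcpt : IsCompact (closedBall x₀ (δ + t)) := isCompact_closedBall x₀ (δ + t)
  have hint : LocallyIntegrable ((closedBall x₀ (δ + t)).indicator Φ) μ :=
    ((hΦ.mono hC).integrableOn_compact hcpt).integrable_indicator hcpt.measurableSet |>.locallyIntegrable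
  have hκ : ContDiff ℝ ∞ (fun u : E => η (t⁻¹ • (-u))) :=
    hη.smooth.comp (contDiff_const.smul contDiff_neg)
  have hκc : HasCompactSupport (fun u : E => η (t⁻¹ • (-u))) := by
    refine HasCompactSupport.of_support_subset_isCompact (isCompact_closedBall (0 : E) t) ?_
    intro u hu
    rw [mem_closedBall_zero_iff]
    by_contra h
    rw [not_le] at h
    apply hu
    apply hη.supp
    rw [norm_smul, norm_neg, norm_inv, Real.norm_eq_abs, abs_of_pos ht]
    rwa [← div_eq_inv_mul, one_lt_div ht]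
  have key : ContDiff ℝ ∞ (fun x => moll μ η ((closedBall x₀ (δ + t)).indicator Φ) t x) := by
    have h1 := (hκc.contDiff_convolution_right
      (ContinuousLinearMap.lsmul ℝ ℝ : ℝ →L[ℝ] F →L[ℝ] F).flip hint hκ).const_smul
        (|(t ^ Module.finrank ℝ E)⁻¹|)
    have h2 : (fun x => moll μ η ((closedBall x₀ (δ + t)).indicator Φ) t x) = fun x =>
        |(t ^ Module.finrank ℝ E)⁻¹| • convolution ((closedBall x₀ (δ + t)).indicator Φ)
          (fun u => η (t⁻¹ • (-u))) (ContinuousLinearMap.lsmul ℝ ℝ : ℝ →L[ℝ] F →L[ℝ] F).flip μ x :=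
      funext fun x => moll_eq _ _ ht x
    rw [h2]
    exact h1
  refine key.contDiffAt.congr_of_eventuallyEq ?_
  filter_upwards [Metric.ball_mem_nhds x₀ hδp] with x hx
  unfold moll
  refine integral_congr_ae (Eventually.of_forall fun y => ?_)
  by_cases hy : ‖y‖ ≤ 1
  · have h1 : x + t • y ∈ closedBall x₀ (δ + t) := by
      rw [mem_closedBall, dist_eq_norm]
      have h2 : x + t • y - x₀ = (x - x₀) + t • y := by abel
      rw [h2]
      refine (norm_add_le _ _).trans (add_le_add ?_ ?_)
      · rw [mem_ball, dist_eq_norm] at hx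
        exact hx.le
      · rw [norm_smul, Real.norm_eq_abs, abs_of_pos ht]
        nlinarith
    simp only [indicator_of_mem h1]
  · rw [not_le] at hy
    simp only [hη.supp y hy, zero_smul]

end Pool.Agent.L7h34.AA
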