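import Pool.Agent.L7h32.AA.Stm

set_option autoImplicit false

open Set Filter Topology Metric MeasureTheory
open scoped ContDiff Manifold InnerProductSpace

noncomputable section

namespace Pool.Agent.L7h34.AA

open Pool.Agent.L7h32.AA

theorem s_MOL : S_MOL := by
  intro E F _ _ _ _ _ μ _ _ _ _ η hη U V ρ Φ hU hV hρ hUV hΦ
  have hs : IsOpen (Ioo (-ρ) ρ ×ˢ V) := isOpen_Ioo.prod hV
  obtain ⟨g, hgdef⟩ : ∃ g : ℝ × E → E → F, ∀ p z, g p z = η (-z) • Φ (p.2 - p.1 • z) := ⟨_, fun _ _ => rfl⟩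
  have hz : ∀ z : E, z ∉ closedBall (0 : E) 1 → η (-z) = 0 := by
    intro z hz
    apply hη.supp
    rw [norm_neg]
    rwa [mem_closedBall_zero_iff, not_le] at hz
  have hg : ContDiffOn ℝ ∞ ↿g ((Ioo (-ρ) ρ ×ˢ V) ×ˢ univ) := by
    rintro ⟨⟨t, x⟩, z⟩ ⟨⟨ht, hx⟩, -⟩
    apply ContDiffAt.contDiffWithinAt
    by_cases h : z ∈ closedBall (0 : E) 1
    · have hz1 : ‖z‖ ≤ 1 := by rwa [mem_closedBall_zero_iff] at h
      have hm : x - t • z ∈ U := by
        have h1 := hUV x hx (-(t • z)) (by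
          rw [norm_neg, norm_smul, Real.norm_eq_abs]
          have h2 : |t| < ρ := abs_lt.2 ht
          nlinarith [abs_nonneg t, norm_nonneg z])
        rwa [← sub_eq_add_neg] at h1
      have h3 : ContDiffAt ℝ ∞ Φ (x - t • z) := hΦ.contDiffAt (hU.mem_nhds hm)
      have h4 : ContDiffAt ℝ ∞ (fun q : (ℝ × E) × E => q.1.2 - q.1.1 • q.2) ((t, x), z) :=
        ContDiffAt.sub (by fun_prop) (ContDiffAt.smul (by fun_prop) (by fun_prop))
      have h5 : ContDiffAt ℝ ∞ (fun q : (ℝ × E) × E => Φ (q.1.2 - q.1.1 • q.2)) ((t, x), z) :=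
        ContDiffAt.comp ((t, x), z) (g := Φ) (f := fun q : (ℝ × E) × E => q.1.2 - q.1.1 • q.2) h3 h4
      have h6 : ContDiffAt ℝ ∞ (fun q : (ℝ × E) × E => η (-q.2)) ((t, x), z) :=
        (hη.smooth.comp (by fun_prop : ContDiff ℝ ∞ (fun q : (ℝ × E) × E => -q.2))).contDiffAt
      refine (h6.smul h5).congr_of_eventuallyEq (Eventually.of_forall fun q => ?_)
      exact hgdef q.1 q.2
    · have h1 : ∀ᶠ q : (ℝ × E) × E in 𝓝 ((t, x), z), q.2 ∉ closedBall (0 : E) 1 := by
        have : IsOpen {q : (ℝ × E) × E | q.2 ∉ closedBall (0 : E) 1} :=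
          (isClosed_closedBall.isOpen_compl).preimage continuous_snd
        exact this.mem_nhds h
      refine (contDiffAt_const (c := (0 : F))).congr_of_eventuallyEq ?_
      filter_upwards [h1] with q hq
      show g q.1 q.2 = 0
      rw [hgdef, hz _ hq, zero_smul]
  have key := contDiffOn_convolution_right_with_param_comp (n := ⊤) (μ := μ)
    (ContinuousLinearMap.lsmul ℝ ℝ : ℝ →L[ℝ] F →L[ℝ] F) (s := Ioo (-ρ) ρ ×ˢ V)
    (v := fun _ => (0 : E)) contDiffOn_const (f := fun _ => (1 : ℝ)) (g := g) hs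
    (isCompact_closedBall (0 : E) 1) (fun p z _ h => by rw [hgdef, hz z h, zero_smul])
    continuous_const.locallyIntegrable hg
  refine key.congr ?_
  rintro ⟨t, x⟩ -
  unfold moll
  rw [convolution_def]
  refine integral_congr_ae (Eventually.of_forall fun y => ?_)
  simp [hgdef]

theorem s_KER : S_KER := by
  intro E _ _ _ _ _ μ _
  let b : ContDiffBump (0 : E) := ⟨1 / 2, 1, by norm_num, by norm_num⟩
  refine ⟨b.normed μ, b.contDiff_normed, b.nonneg_normed, fun y hy => ?_, b.integral_normed⟩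
  have h1 := b.support_normed_eq (μ := μ)
  by_contra h
  have h2 : y ∈ Function.support (b.normed μ) := h
  rw [h1, mem_ball_zero_iff] at h2
  have : b.rOut = 1 := rfl
  linarith

end Pool.Agent.L7h34.AA
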