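import Pool.Agent.L7h32.AA.Stm

set_option autoImplicit false

open Set Filter Topology Metric MeasureTheory
open scoped ContDiff Manifold InnerProductSpace

noncomputable section

namespace Pool.Agent.L7h34.AA

open Pool.Agent.L7h32.AA

theorem s_SVD : S_SVD := by
  intro n A l hl hA
  have hn : Module.finrank ℝ (EuclideanSpace ℝ (Fin n)) = n := by simp
  have hT : ((ContinuousLinearMap.adjoint A ∘L A : EuclideanSpace ℝ (Fin n) →L[ℝ]
      EuclideanSpace ℝ (Fin n)) : EuclideanSpace ℝ (Fin n) →ₗ[ℝ] EuclideanSpace ℝ (Fin n)).IsSymmetric := by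
    intro x y
    simp only [ContinuousLinearMap.coe_coe, ContinuousLinearMap.coe_comp, Function.comp_apply]
    rw [ContinuousLinearMap.adjoint_inner_left, ContinuousLinearMap.adjoint_inner_right]
  set b := hT.eigenvectorBasis hn with hb
  have hTb : ∀ i v, ⟪A (b i), A v⟫_ℝ = hT.eigenvalues hn i * ⟪b i, v⟫_ℝ := by
    intro i v
    have h1 := hT.apply_eigenvectorBasis hn i
    simp only [ContinuousLinearMap.coe_coe, ContinuousLinearMap.coe_comp, Function.comp_apply] at h1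
    rw [← ContinuousLinearMap.adjoint_inner_left, ← hb] at *
    rw [h1, inner_smul_left]
    simp
  have hσ0 : ∀ i, l ≤ ‖A (b i)‖ := by
    intro i
    have := hA (b i)
    rwa [b.norm_eq_one, mul_one] at this
  have hσp : ∀ i, 0 < ‖A (b i)‖ := fun i => hl.trans_le (hσ0 i)
  have hev : ∀ i, hT.eigenvalues hn i = ‖A (b i)‖ ^ 2 := by
    intro i
    have h1 := hTb i (b i)
    rw [real_inner_self_eq_norm_sq, real_inner_self_eq_norm_sq, b.norm_eq_one] at h1
    linarith
  have hTb' : ∀ i v, ⟪(‖A (b i)‖)⁻¹ • A (b i), A v⟫_ℝ = ‖A (b i)‖ * ⟪b i, v⟫_ℝ := by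
    intro i v
    rw [inner_smul_left, hTb, hev]
    have := (hσp i).ne'
    simp only [conj_trivial]
    field_simp
  have hf : Orthonormal ℝ (fun i => (‖A (b i)‖)⁻¹ • A (b i)) := by
    rw [orthonormal_iff_ite]
    intro i j
    rw [inner_smul_right, hTb', b.inner_eq_ite]
    split_ifs with h
    · subst h
      rw [mul_one, inv_mul_cancel₀ (hσp _).ne']
    · simp
  have hcard : Fintype.card (Fin n) = Module.finrank ℝ (EuclideanSpace ℝ (Fin n)) := by simp
  obtain ⟨c, hc⟩ : ∃ c : OrthonormalBasis (Fin n) ℝ (EuclideanSpace ℝ (Fin n)),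
      ∀ i, c i = (‖A (b i)‖)⁻¹ • A (b i) := by
    have h1 := hf.linearIndependent.span_eq_top_of_card_eq_finrank' hcard
    exact ⟨OrthonormalBasis.mk hf h1.ge, fun i => by rw [OrthonormalBasis.coe_mk]⟩
  refine ⟨b.equiv c (Equiv.refl _), fun s hs => ⟨min l 1, lt_min hl one_pos, fun v => ?_⟩⟩
  have hm : 0 < min l 1 := lt_min hl one_pos
  have hO : ∀ i, ⟪c i, (b.equiv c (Equiv.refl _)) v⟫_ℝ = ⟪b i, v⟫_ℝ := by
    intro i
    have h1 : c i = (b.equiv c (Equiv.refl _)) (b i) := by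
      simp
    rw [h1, LinearIsometryEquiv.inner_map_map]
  have hW : ∀ i, ⟪c i, (1 - s) • A v + s • (b.equiv c (Equiv.refl _)) v⟫_ℝ =
      ((1 - s) * ‖A (b i)‖ + s) * ⟪b i, v⟫_ℝ := by
    intro i
    rw [inner_add_right, inner_smul_right, inner_smul_right, hO, hc, hTb']
    ring
  have h1 := c.sum_sq_norm_inner_right ((1 - s) • A v + s • (b.equiv c (Equiv.refl _)) v)
  have h2 := b.sum_sq_norm_inner_right v
  rw [← abs_of_nonneg (mul_nonneg hm.le (norm_nonneg v)), ← abs_of_nonneg (norm_nonneg ((1 - s) • A v + _)),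
    ← sq_le_sq, ← h1, mul_pow, ← h2, Finset.mul_sum]
  refine Finset.sum_le_sum fun i _ => ?_
  rw [hW, norm_mul, mul_pow]
  refine mul_le_mul_of_nonneg_right ?_ (sq_nonneg _)
  have h3 : min l 1 ≤ (1 - s) * ‖A (b i)‖ + s := by
    have e1 : min l 1 ≤ ‖A (b i)‖ := (min_le_left _ _).trans (hσ0 i)
    have e2 : min l 1 ≤ 1 := min_le_right _ _
    have e3 : 0 ≤ 1 - s := by linarith [hs.2]
    nlinarith [hs.1]
  rw [Real.norm_eq_abs, sq_abs]
  exact pow_le_pow_left₀ hm.le h3 2

end Pool.Agent.L7h34.AA
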