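import Pool.Agent.L7h32.AA.Stm

set_option autoImplicit false
set_option linter.unusedSectionVars false

open Set Filter Topology Metric MeasureTheory
open scoped ContDiff Manifold InnerProductSpace

noncomputable section

namespace Pool.Agent.L7h34.AA

open Pool.Agent.L7h32.AA

variable {E F : Type} [NormedAddCommGroup E] [NormedSpace ℝ E] [FiniteDimensional ℝ E]
  [NormedAddCommGroup F] [NormedSpace ℝ F] [FiniteDimensional ℝ F]
  {K U : Set E} {N : E → E} {f : E → F}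

/-- the map `x ↦ (f (N x), x - N x)` -/
def Psi (N : E → E) (f : E → F) (x : E) : F × E := (f (N x), x - N x)

theorem psi_strict (hR : Ret K U N) (hf : ContDiffOn ℝ ∞ (fun x => f (N x)) U) {x : E} (hx : x ∈ K) :
    HasStrictFDerivAt (Psi N f) (fderiv ℝ (Psi N f) x) x := by
  have hU := hR.opn.mem_nhds (hR.sub hx)
  have h : ContDiffAt ℝ ∞ (Psi N f) x :=
    (hf.contDiffAt hU).prodMk (contDiffAt_id.sub (hR.smooth.contDiffAt hU))
  exact h.hasStrictFDerivAt (by simp)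

theorem psi_inj (hR : Ret K U N) (hf : ContDiffOn ℝ ∞ (fun x => f (N x)) U) {x : E} (hx : x ∈ K)
    (hloc : ∃ c : ℝ, 0 < c ∧ ∃ ρ : ℝ, 0 < ρ ∧ ∀ y ∈ K, ‖y - x‖ < ρ → c * ‖x - y‖ ≤ ‖f x - f y‖)
    {v : E} (hv : fderiv ℝ (Psi N f) x v = 0) : v = 0 := by
  obtain ⟨c, hc, ρ, hρ, hcρ⟩ := hloc
  by_contra hv0
  have hvp : 0 < ‖v‖ := norm_pos_iff.2 hv0
  obtain ⟨ε, hε⟩ : ∃ ε : ℝ, ε = c / (2 * (1 + c)) := ⟨_, rfl⟩
  have hεp : 0 < ε := by rw [hε]; positivity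
  have hU := hR.opn.mem_nhds (hR.sub hx)
  have h1 : ∀ᶠ y in 𝓝 x, ‖Psi N f y - Psi N f x - fderiv ℝ (Psi N f) x (y - x)‖ ≤ ε * ‖y - x‖ :=
    (psi_strict hR hf hx).hasFDerivAt.isLittleO.def hεp
  have h2 : ∀ᶠ y in 𝓝 x, y ∈ U := hU
  have h3 : ∀ᶠ y in 𝓝 x, ‖N y - x‖ < ρ := by
    have hN : ContinuousAt N x := (hR.smooth.contDiffAt hU).continuousAt
    have h4 : ∀ᶠ y in 𝓝 x, dist (N y) (N x) < ρ := hN.eventually (Metric.ball_mem_nhds _ hρ)
    filter_upwards [h4] with y hy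
    rwa [hR.fix x hx, dist_eq_norm] at hy
  have ht : Tendsto (fun s : ℝ => x + s • v) (𝓝[>] 0) (𝓝 x) := by
    have h5 : Continuous (fun s : ℝ => x + s • v) := by fun_prop
    have h6 := h5.tendsto 0
    simp only [zero_smul, add_zero] at h6
    exact h6.mono_left nhdsWithin_le_nhds
  have h7 : ∀ᶠ s in 𝓝[>] (0 : ℝ), 0 < s := self_mem_nhdsWithin
  obtain ⟨s, hs1, hs2, hs3, hs4⟩ :=
    ((ht.eventually h1).and ((ht.eventually h2).and ((ht.eventually h3).and h7))).exists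
  have e1 : x + s • v - x = s • v := by abel
  rw [e1, map_smul, hv, smul_zero, sub_zero, norm_smul, Real.norm_eq_abs, abs_of_pos hs4] at hs1
  have e2 : Psi N f (x + s • v) - Psi N f x =
      (f (N (x + s • v)) - f x, x + s • v - N (x + s • v)) := by
    unfold Psi
    rw [hR.fix x hx]
    simp
  rw [e2, Prod.norm_mk, max_le_iff] at hs1
  obtain ⟨k1, k2⟩ := hs1
  have k3 := hcρ _ (hR.maps _ hs2) hs3
  rw [norm_sub_rev (f x)] at k3
  have k4 : s * ‖v‖ - ‖x - N (x + s • v)‖ ≤ ε * (s * ‖v‖) := by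
    have k5 : s • v = (x + s • v - N (x + s • v)) - (x - N (x + s • v)) := by abel
    have k6 : ‖s • v‖ ≤ ‖x + s • v - N (x + s • v)‖ + ‖x - N (x + s • v)‖ := by
      conv_lhs => rw [k5]
      exact norm_sub_le _ _
    rw [norm_smul, Real.norm_eq_abs, abs_of_pos hs4] at k6
    linarith
  have k7 : c * (s * ‖v‖ - ε * (s * ‖v‖)) ≤ ε * (s * ‖v‖) := by
    have : s * ‖v‖ - ε * (s * ‖v‖) ≤ ‖x - N (x + s • v)‖ := by linarith
    exact (mul_le_mul_of_nonneg_left this hc.le).trans (k3.trans k1)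
  have k8 : 0 < s * ‖v‖ := mul_pos hs4 hvp
  have k9 : c * (1 - ε) ≤ ε := by
    have : (c * (1 - ε)) * (s * ‖v‖) ≤ ε * (s * ‖v‖) := by linarith
    exact le_of_mul_le_mul_right this k8
  have k10 : ε * (1 + c) = c / 2 := by
    rw [hε]
    field_simp
  nlinarith

theorem low_near (hR : Ret K U N) (hf : ContDiffOn ℝ ∞ (fun x => f (N x)) U) {x : E} (hx : x ∈ K)
    (hloc : ∃ c : ℝ, 0 < c ∧ ∃ ρ : ℝ, 0 < ρ ∧ ∀ y ∈ K, ‖y - x‖ < ρ → c * ‖x - y‖ ≤ ‖f x - f y‖) :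
    ∃ c : ℝ, 0 < c ∧ ∀ᶠ q in 𝓝 (x, x), q.1 ∈ K → q.2 ∈ K → c * ‖q.1 - q.2‖ ≤ ‖f q.1 - f q.2‖ := by
  have hker : LinearMap.ker (fderiv ℝ (Psi N f) x : E →ₗ[ℝ] F × E) = ⊥ := by
    rw [LinearMap.ker_eq_bot']
    intro v hv
    exact psi_inj hR hf hx hloc hv
  obtain ⟨M, hM, hanti⟩ := LinearMap.exists_antilipschitzWith _ hker
  have hM' : (0 : ℝ) < M := by exact_mod_cast hM
  have hlow : ∀ v : E, (M : ℝ)⁻¹ * ‖v‖ ≤ ‖fderiv ℝ (Psi N f) x v‖ := by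
    intro v
    have h1 := hanti.le_mul_dist v 0
    rw [map_zero, dist_zero_right, dist_zero_right] at h1
    rw [inv_mul_le_iff₀ hM']
    exact h1
  have hc : 0 < (M : ℝ)⁻¹ / 2 := by positivity
  refine ⟨(M : ℝ)⁻¹ / 2, hc, ?_⟩
  have h2 := (psi_strict hR hf hx).isLittleO.def hc
  filter_upwards [h2] with q hq h3 h4
  have e1 : Psi N f q.1 - Psi N f q.2 = (f q.1 - f q.2, 0) := by
    unfold Psi
    rw [hR.fix _ h3, hR.fix _ h4]
    simp
  have e2 : ‖Psi N f q.1 - Psi N f q.2‖ = ‖f q.1 - f q.2‖ := by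
    rw [e1, Prod.norm_mk, norm_zero, max_eq_left (norm_nonneg _)]
  have e3 := hlow (q.1 - q.2)
  have e4 := norm_sub_norm_le (fderiv ℝ (Psi N f) x (q.1 - q.2)) (Psi N f q.1 - Psi N f q.2)
  rw [norm_sub_rev (fderiv ℝ (Psi N f) x (q.1 - q.2)), e2] at e4
  linarith

theorem s_LOW : S_LOW := by
  intro E F _ _ _ _ _ _ K U N f hR hf hinj hloc
  refine ⟨hf, ?_⟩
  have hcont : ContinuousOn f K := by
    have h1 := hf.continuousOn.mono hR.sub
    refine h1.congr fun x hx => ?_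
    show f x = f (N x)
    rw [hR.fix x hx]
  have key : ∃ c : ℝ, 0 < c ∧ ∀ q ∈ K ×ˢ K, c * ‖q.1 - q.2‖ ≤ ‖f q.1 - f q.2‖ := by
    refine (hR.cpt.prod hR.cpt).induction_on
      (p := fun S => ∃ c : ℝ, 0 < c ∧ ∀ q ∈ S, c * ‖q.1 - q.2‖ ≤ ‖f q.1 - f q.2‖) ?_ ?_ ?_ ?_
    · exact ⟨1, one_pos, fun q hq => absurd hq (notMem_empty q)⟩
    · rintro S T hST ⟨c, hc, h⟩
      exact ⟨c, hc, fun q hq => h q (hST hq)⟩
    · rintro S T ⟨c, hc, h⟩ ⟨d, hd, h'⟩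
      refine ⟨min c d, lt_min hc hd, ?_⟩
      rintro q (hq | hq)
      · exact (mul_le_mul_of_nonneg_right (min_le_left _ _) (norm_nonneg _)).trans (h q hq)
      · exact (mul_le_mul_of_nonneg_right (min_le_right _ _) (norm_nonneg _)).trans (h' q hq)
    · rintro ⟨x, y⟩ ⟨hx, hy⟩
      simp only at hx hy
      by_cases hxy : x = y
      · subst hxy
        obtain ⟨c, hc, h⟩ := low_near hR hf hx (hloc x hx)
        refine ⟨{q | q ∈ K ×ˢ K ∧ c * ‖q.1 - q.2‖ ≤ ‖f q.1 - f q.2‖}, ?_, c, hc, fun q hq => hq.2⟩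
        filter_upwards [self_mem_nhdsWithin, mem_nhdsWithin_of_mem_nhds h] with q h1 h2
        exact ⟨h1, h2 h1.1 h1.2⟩
      · have hd : 0 < ‖f x - f y‖ := by
          rw [norm_pos_iff, sub_ne_zero]
          exact fun h => hxy (hinj x hx y hy h)
        obtain ⟨c, hc⟩ : ∃ c : ℝ, c = ‖f x - f y‖ / 2 / (‖x - y‖ + 1) := ⟨_, rfl⟩
        have hp : 0 < ‖x - y‖ + 1 := by positivity
        refine ⟨{q | c * ‖q.1 - q.2‖ ≤ ‖f q.1 - f q.2‖}, ?_, c, by rw [hc]; positivity, fun q hq => hq⟩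
        have h1 : ContinuousOn (fun q : E × E => ‖f q.1 - f q.2‖) (K ×ˢ K) :=
          ((hcont.comp continuousOn_fst fun q hq => hq.1).sub
            (hcont.comp continuousOn_snd fun q hq => hq.2)).norm
        have h2 : Continuous (fun q : E × E => ‖q.1 - q.2‖) := by fun_prop
        have h3 : ∀ᶠ q in 𝓝[K ×ˢ K] (x, y), ‖f x - f y‖ / 2 < ‖f q.1 - f q.2‖ :=
          (h1 (x, y) ⟨hx, hy⟩).eventually (lt_mem_nhds (half_lt_self hd))
        have h4 : ∀ᶠ q in 𝓝[K ×ˢ K] (x, y), ‖q.1 - q.2‖ < ‖x - y‖ + 1 :=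
          mem_nhdsWithin_of_mem_nhds ((h2.tendsto (x, y)).eventually (gt_mem_nhds (by simp)))
        filter_upwards [h3, h4] with q h5 h6
        show c * ‖q.1 - q.2‖ ≤ ‖f q.1 - f q.2‖
        have h7 : c * ‖q.1 - q.2‖ ≤ c * (‖x - y‖ + 1) :=
          mul_le_mul_of_nonneg_left h6.le (by rw [hc]; positivity)
        have h8 : c * (‖x - y‖ + 1) = ‖f x - f y‖ / 2 := by
          rw [hc]
          field_simp
        linarith
  obtain ⟨c, hc, h⟩ := key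
  exact ⟨c, hc, fun x hx y hy => h (x, y) ⟨hx, hy⟩⟩

end Pool.Agent.L7h34.AA
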